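import Pool.Agent.H95.GY.Targets

/-!
# gy_modules DIM: the descending sequence of good subgroups stabilises up to finite index
-/

set_option autoImplicit false

open Filter Topology MeasureTheory Set
open scoped Pointwise

universe u v

namespace Pool.Agent.H71.GY

open Pool.Agent.H95.GY

/-- the ordered product `b_i(t_i) b_(i+1)(t_(i+1)) ...` with `l` factors -/
def Rp {G : Type u} [Group G] (b : ℕ → ℝ → G) (t : ℕ → ℝ) : ℕ → ℕ → G
  | _, 0 => 1
  | i, l + 1 => b i (t i) * Rp b t (i + 1) l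

theorem Rp_mem {G : Type u} [Group G] (b : ℕ → ℝ → G) (N : ℕ → Subgroup G)
    (hN : ∀ i, N (i + 1) ≤ N i) (hb : ∀ i t, b i t ∈ N i) (t : ℕ → ℝ) (l : ℕ) :
    ∀ i, Rp b t i l ∈ N i := by
  induction l with
  | zero => exact fun i => (N i).one_mem
  | succ l ih => exact fun i => (N i).mul_mem (hb i _) (hN i (ih (i + 1)))

theorem Rp_inj {G : Type u} [Group G] [TopologicalSpace G] (K : Subgroup G)
    (b : ℕ → ℝ → G) (N : ℕ → Subgroup G)
    (hN : ∀ i, N (i + 1) ≤ N i) (hops : ∀ i, IsOPS (b i)) (hb : ∀ i t, b i t ∈ N i)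
    (hinj : ∀ i t, |t| ≤ 1 → b i t ∈ K ⊔ N (i + 1) → t = 0) (s t : ℕ → ℝ)
    (hst : ∀ i, |t i - s i| ≤ 1) (l : ℕ) :
    ∀ i, (Rp b s i l)⁻¹ * Rp b t i l ∈ K → ∀ j < l, s (i + j) = t (i + j) := by
  induction l with
  | zero => exact fun i _ j hj => absurd hj (Nat.not_lt_zero j)
  | succ l ih =>
    intro i hk
    have hA := Rp_mem b N hN hb s l (i + 1)
    have hB := Rp_mem b N hN hb t l (i + 1)
    have h0 : s i = t i := by
      have h1 : b i (t i - s i) ∈ K ⊔ N (i + 1) := by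
        have h2 : b i (t i - s i) = Rp b s (i + 1) l *
            ((Rp b s i (l + 1))⁻¹ * Rp b t i (l + 1)) * (Rp b t (i + 1) l)⁻¹ := by
          have e1 : b i (t i - s i) = (b i (s i))⁻¹ * b i (t i) := by
            rw [← (hops i).neg, ← (hops i).add]
            congr 1
            ring
          rw [e1]
          simp only [Rp]
          group
        rw [h2]
        exact Subgroup.mul_mem _ (Subgroup.mul_mem _
          ((le_sup_right : N (i + 1) ≤ K ⊔ N (i + 1)) hA)
          ((le_sup_left : K ≤ K ⊔ N (i + 1)) hk))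
          (Subgroup.inv_mem _ ((le_sup_right : N (i + 1) ≤ K ⊔ N (i + 1)) hB))
      have := hinj i _ (hst i) h1
      linarith
    have hk' : (Rp b s (i + 1) l)⁻¹ * Rp b t (i + 1) l ∈ K := by
      have h3 : (Rp b s i (l + 1))⁻¹ * Rp b t i (l + 1) =
          (Rp b s (i + 1) l)⁻¹ * Rp b t (i + 1) l := by
        simp only [Rp]
        rw [h0]
        group
      rwa [h3] at hk
    intro j hj
    rcases j with _ | j
    · exact h0
    · have := ih (i + 1) hk' j (Nat.lt_of_succ_lt_succ hj)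
      rwa [Nat.add_assoc, Nat.add_comm 1 j] at this

theorem Rp_cont {G : Type u} [Group G] [TopologicalSpace G] [IsTopologicalGroup G]
    (b : ℕ → ℝ → G) (hops : ∀ i, IsOPS (b i)) {X : Type*} [TopologicalSpace X]
    (t : X → ℕ → ℝ) (ht : ∀ i, Continuous fun x => t x i) (l : ℕ) :
    ∀ i, Continuous fun x => Rp b (t x) i l := by
  induction l with
  | zero => exact fun i => continuous_const
  | succ l ih => exact fun i => ((hops i).cont.comp (ht i)).mul (ih (i + 1))

theorem t2_quot {G : Type u} [Group G] [TopologicalSpace G] [IsTopologicalGroup G]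
    (K : Subgroup G) (hK : IsClosed (K : Set G)) : T2Space (G ⧸ K) := by
  rw [t2Space_iff_of_isOpenQuotientMap (QuotientGroup.isOpenQuotientMap_mk (N := K))]
  have h1 : {q : G × G | (QuotientGroup.mk q.1 : G ⧸ K) = QuotientGroup.mk q.2} =
      (fun q : G × G => q.1⁻¹ * q.2) ⁻¹' (K : Set G) := by
    ext q
    exact QuotientGroup.eq
  rw [h1]
  exact hK.preimage ((continuous_inv.comp continuous_fst).mul continuous_snd)

theorem pf_DIM (hARC : T_ARC.{u}) (hCUB : T_CUB.{u}) : T_DIM.{u} := by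
  classical
  intro G _ _ _ _ _ hSG K hK n hcov
  by_contra hno
  have hno' : ∀ N : Subgroup G, Good N → ∃ N' : Subgroup G, Good N' ∧ N' ≤ N ∧
      (K ⊔ N').relIndex (K ⊔ N) = 0 := by
    intro N hN
    by_contra h
    refine hno ⟨N, hN, fun N' hN' hle h0 => h ⟨N', hN', hle, h0⟩⟩
  obtain ⟨N₀, hN₀, -⟩ := hSG univ univ_mem
  choose F hF using hno'
  let S : ℕ → {N : Subgroup G // Good N} := fun i =>
    Nat.rec ⟨N₀, hN₀⟩ (fun _ N => ⟨F N.1 N.2, (hF N.1 N.2).1⟩) i
  have hS : ∀ i, (S (i + 1)).1 ≤ (S i).1 := fun i => (hF (S i).1 (S i).2).2.1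
  have hS0 : ∀ i, (K ⊔ (S (i + 1)).1).relIndex (K ⊔ (S i).1) = 0 :=
    fun i => (hF (S i).1 (S i).2).2.2
  have harc : ∀ i, ∃ a : ℝ → G, IsOPS a ∧ (∀ t, a t ∈ (S i).1) ∧
      ∃ ε : ℝ, 0 < ε ∧ ∀ t, |t| ≤ ε → a t ∈ K ⊔ (S (i + 1)).1 → t = 0 := fun i =>
    hARC G hSG K hK (S i).1 (S (i + 1)).1 (S i).2 (S (i + 1)).2 (hS i) (hS0 i)
  choose a ha haN ε hε hae using harc
  let b : ℕ → ℝ → G := fun i t => a i (ε i * t)
  have hb : ∀ i, IsOPS (b i) := fun i => (ha i).scale (ε i)
  have hbN : ∀ i t, b i t ∈ (S i).1 := fun i t => haN i _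
  have hbi : ∀ i t, |t| ≤ 1 → b i t ∈ K ⊔ (S (i + 1)).1 → t = 0 := by
    intro i t ht hm
    have h1 : |ε i * t| ≤ ε i := by
      rw [abs_mul, abs_of_pos (hε i)]
      exact mul_le_of_le_one_right (hε i).le ht
    have h2 := hae i _ h1 hm
    exact (mul_eq_zero.1 h2).resolve_left (hε i).ne'
  let ext : (Fin (n + 1) → ℝ) → ℕ → ℝ := fun t j => if h : j < n + 1 then t ⟨j, h⟩ else 0
  have hext : ∀ i, Continuous fun t => ext t i := by
    intro i
    by_cases h : i < n + 1
    · simp only [ext, h, dif_pos]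
      exact continuous_apply _
    · simp only [ext, h, dif_neg, not_false_eq_true]
      exact continuous_const
  have hT2 := t2_quot K hK.isClosed
  refine hCUB (G ⧸ K) n (fun t => QuotientGroup.mk (Rp b (ext t) 0 (n + 1))) ?_ ?_ hcov
  · exact (QuotientGroup.continuous_mk.comp (Rp_cont b hb ext hext (n + 1) 0)).continuousOn
  · intro s hs t ht hst
    have h1 : (Rp b (ext s) 0 (n + 1))⁻¹ * Rp b (ext t) 0 (n + 1) ∈ K := QuotientGroup.eq.1 hst
    have h2 := Rp_inj K b (fun i => (S i).1) hS hb hbN hbi (ext s) (ext t) ?_ (n + 1) 0 h1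
    · funext j
      have h3 := h2 j.1 j.2
      rw [Nat.zero_add] at h3
      simpa only [ext, j.2, dif_pos, Fin.eta] using h3
    · intro i
      by_cases h : i < n + 1
      · simp only [ext, h, dif_pos]
        have e1 := hs.1 ⟨i, h⟩
        have e2 := hs.2 ⟨i, h⟩
        have e3 := ht.1 ⟨i, h⟩
        have e4 := ht.2 ⟨i, h⟩
        simp only [Pi.zero_apply, Pi.one_apply] at e1 e2 e3 e4
        rw [abs_le]
        constructor <;> linarith
      · simp only [ext, h, dif_neg, not_false_eq_true, sub_zero, abs_zero]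
        exact zero_le_one

end Pool.Agent.H71.GY
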