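import Pool.Agent.H95.GY.Targets

/-!
# gy_modules EXT: equivariant extension of a representation of a compact subgroup
-/

set_option autoImplicit false

open Filter Topology MeasureTheory Set
open scoped Pointwise

universe u v

namespace Pool.Agent.H71.GY

open Pool.Agent.H95.GY

/-- Tietze for a compact subset of a locally compact Hausdorff space -/
theorem tietze_loc {Q : Type u} [TopologicalSpace Q] [LocallyCompactSpace Q] [T2Space Q]
    {K : Type u} [TopologicalSpace K] [CompactSpace K] (i : K → Q) (hi : Continuous i)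
    (hinj : Function.Injective i) (m : ℕ) (f : K → (Fin m → Fin m → ℝ)) (hf : Continuous f) :
    ∃ g : Q → (Fin m → Fin m → ℝ), Continuous g ∧ ∀ k, g (i k) = f k := by
  have he : IsClosedEmbedding fun k => (i k : OnePoint Q) :=
    (OnePoint.continuous_coe.comp hi).isClosedEmbedding (OnePoint.coe_injective.comp hinj)
  obtain ⟨g, hg⟩ := ContinuousMap.exists_extension he ⟨f, hf⟩
  refine ⟨fun x => g (x : OnePoint Q), g.continuous.comp OnePoint.continuous_coe, fun k => ?_⟩
  exact congrArg (fun F => F k) hg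

/-- integrals over a compact group depend continuously on parameters -/
theorem cont_int {X : Type u} {K : Type u} [TopologicalSpace X] [TopologicalSpace K]
    [CompactSpace K] [MeasurableSpace K] [BorelSpace K] (μ : Measure K)
    [IsFiniteMeasure μ] (m : ℕ)
    (f : X → K → (Fin m → Fin m → ℝ)) (hf : Continuous fun p : X × K => f p.1 p.2) :
    Continuous fun x => ∫ k, f x k ∂μ := by
  rw [← continuousOn_univ]
  exact continuousOn_integral_of_compact_support (k := univ) isCompact_univ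
    (by rw [univ_prod_univ]; exact hf.continuousOn) fun p x _ hx => absurd (mem_univ x) hx

theorem integ {K : Type u} [TopologicalSpace K]
    [CompactSpace K] [MeasurableSpace K] [BorelSpace K] (μ : Measure K)
    [IsFiniteMeasure μ] (m : ℕ)
    (f : K → (Fin m → Fin m → ℝ)) (hf : Continuous f) : Integrable f μ :=
  hf.integrable_of_hasCompactSupport (HasCompactSupport.of_compactSpace f)

/-- conjugation as a linear map -/
noncomputable def conjL (m : ℕ) (A B : Matrix (Fin m) (Fin m) ℝ) :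
    (Fin m → Fin m → ℝ) →L[ℝ] (Fin m → Fin m → ℝ) :=
  LinearMap.toContinuousLinearMap
    { toFun := fun M => (A * (Matrix.of M) * B : Matrix (Fin m) (Fin m) ℝ)
      map_add' := fun x y => by
        change A * (Matrix.of x + Matrix.of y) * B = _
        rw [mul_add, add_mul]
        rfl
      map_smul' := fun c x => by
        change A * (c • Matrix.of x) * B = _
        rw [mul_smul_comm, smul_mul_assoc]
        rfl }

theorem conjL_apply (m : ℕ) (A B M : Matrix (Fin m) (Fin m) ℝ) :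
    conjL m A B M = A * M * B := rfl

theorem pf_EXT : T_EXT.{u} := by
  intro Q _ _ _ _ _ K hK m σ hσ horth
  haveI : CompactSpace K := isCompact_iff_compactSpace.1 hK
  letI : MeasurableSpace K := borel K
  haveI : BorelSpace K := ⟨rfl⟩
  obtain ⟨f, hf, hfk⟩ := tietze_loc (fun k : K => (k : Q)) continuous_subtype_val
    Subtype.val_injective m (fun k => σ k) hσ
  let μ : Measure K := Measure.haarMeasure ⊤
  have hμ : μ univ = 1 := by
    have := Measure.haarMeasure_self (K₀ := (⊤ : TopologicalSpace.PositiveCompacts K))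
    simpa only [TopologicalSpace.PositiveCompacts.coe_top] using this
  haveI : IsProbabilityMeasure μ := ⟨hμ⟩
  -- the integrand
  let H : Q → K → K → (Fin m → Fin m → ℝ) := fun x k l =>
    (σ k * (Matrix.of (f ((k : Q)⁻¹ * x * l))) * σ l⁻¹ : Matrix (Fin m) (Fin m) ℝ)
  have hH : Continuous fun p : (Q × K) × K => H p.1.1 p.1.2 p.2 := by
    have h1 : Continuous fun p : (Q × K) × K => (σ p.1.2 : Matrix (Fin m) (Fin m) ℝ) :=
      hσ.comp (continuous_snd.comp continuous_fst)
    have h2 : Continuous fun p : (Q × K) × K =>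
        (Matrix.of (f ((p.1.2 : Q)⁻¹ * p.1.1 * p.2)) : Matrix (Fin m) (Fin m) ℝ) := by
      refine hf.comp ?_
      fun_prop
    have h3 : Continuous fun p : (Q × K) × K => (σ p.2⁻¹ : Matrix (Fin m) (Fin m) ℝ) :=
      hσ.comp (continuous_inv.comp continuous_snd)
    exact (h1.matrix_mul h2).matrix_mul h3
  have hI1 : Continuous fun p : Q × K => ∫ l, H p.1 p.2 l ∂μ :=
    cont_int μ m (fun p : Q × K => H p.1 p.2) hH
  have hI2 : Continuous fun x : Q => ∫ k, ∫ l, H x k l ∂μ ∂μ :=
    cont_int μ m (fun x k => ∫ l, H x k l ∂μ) hI1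
  refine ⟨fun x => Matrix.of (∫ k, ∫ l, H x k l ∂μ ∂μ), hI2, fun k₀ => ?_, fun k₀ l₀ x => ?_⟩
  · have h1 : ∀ k l : K, H k₀ k l = σ k₀ := by
      intro k l
      have e1 : (k : Q)⁻¹ * k₀ * l = ((k⁻¹ * k₀ * l : K) : Q) := by
        simp only [Subgroup.coe_mul, Subgroup.coe_inv]
      change σ k * (Matrix.of (f ((k : Q)⁻¹ * k₀ * l))) * σ l⁻¹ = σ k₀
      rw [e1, hfk]
      change σ k * σ (k⁻¹ * k₀ * l) * σ l⁻¹ = σ k₀
      rw [← map_mul, ← map_mul]
      congr 1
      group
    have h2 : ∫ k, ∫ l, H k₀ k l ∂μ ∂μ = σ k₀ := by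
      simp only [h1]
      simp
    exact h2
  · -- equivariance
    have h1 : ∀ k l : K, H (k₀ * x * l₀) (k₀ * k) (l₀⁻¹ * l) =
        conjL m (σ k₀) (σ l₀) (H x k l) := by
      intro k l
      have e1 : ((k₀ * k : K) : Q)⁻¹ * (k₀ * x * l₀) * ((l₀⁻¹ * l : K) : Q) =
          (k : Q)⁻¹ * x * l := by
        simp only [Subgroup.coe_mul, Subgroup.coe_inv]
        group
      have e2 : (l₀⁻¹ * l)⁻¹ = l⁻¹ * l₀ := by group
      change σ (k₀ * k) * (Matrix.of (f (((k₀ * k : K) : Q)⁻¹ * (k₀ * x * l₀) *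
        ((l₀⁻¹ * l : K) : Q)))) * σ (l₀⁻¹ * l)⁻¹ =
        σ k₀ * (σ k * (Matrix.of (f ((k : Q)⁻¹ * x * l))) * σ l⁻¹) * σ l₀
      rw [e1, e2, map_mul, map_mul]
      simp only [Matrix.mul_assoc]
    have h2 : ∫ k, ∫ l, H (k₀ * x * l₀) k l ∂μ ∂μ =
        ∫ k, ∫ l, H (k₀ * x * l₀) (k₀ * k) (l₀⁻¹ * l) ∂μ ∂μ := by
      rw [← integral_mul_left_eq_self (μ := μ)
        (fun k => ∫ l, H (k₀ * x * l₀) k l ∂μ) k₀]
      refine integral_congr_ae (Eventually.of_forall fun k => ?_)
      exact (integral_mul_left_eq_self (μ := μ)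
        (fun l => H (k₀ * x * l₀) (k₀ * k) l) l₀⁻¹).symm
    have h3 : ∫ k, ∫ l, H (k₀ * x * l₀) (k₀ * k) (l₀⁻¹ * l) ∂μ ∂μ =
        conjL m (σ k₀) (σ l₀) (∫ k, ∫ l, H x k l ∂μ ∂μ) := by
      rw [← ContinuousLinearMap.integral_comp_comm _ (integ μ m _ ?_)]
      · refine integral_congr_ae (Eventually.of_forall fun k => ?_)
        change ∫ l, H (k₀ * x * l₀) (k₀ * k) (l₀⁻¹ * l) ∂μ =
          conjL m (σ k₀) (σ l₀) (∫ l, H x k l ∂μ)
        rw [← ContinuousLinearMap.integral_comp_comm _ (integ μ m _ ?_)]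
        · exact integral_congr_ae (Eventually.of_forall fun l => h1 k l)
        · exact hH.comp (f := fun l : K => ((x, k), l)) (by fun_prop)
      · exact hI1.comp (f := fun k : K => (x, k)) (by fun_prop)
    change ∫ k, ∫ l, H (k₀ * x * l₀) k l ∂μ ∂μ =
      σ k₀ * Matrix.of (∫ k, ∫ l, H x k l ∂μ ∂μ) * σ l₀
    rw [h2, h3]
    rfl

end Pool.Agent.H71.GY
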