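import Pool.Agent.H95.GY.Targets

/-!
# gy_modules HB: the norm of the derivative bounds the one-parameter group
-/

set_option autoImplicit false

open Filter Topology MeasureTheory Set
open scoped Pointwise

universe u v

namespace Pool.Agent.H71.GY

open Pool.Agent.H95.GY

theorem nu_pow {Q : Type u} [Group Q] [TopologicalSpace Q] {ν : Q → ℝ} {r C : ℝ}
    (h : PreG ν r C) (g : Q) (n : ℕ) : ν (g ^ n) ≤ n * ν g := by
  induction n with
  | zero => simp [h.one]
  | succ n ih =>
    rw [pow_succ]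
    refine (h.mul _ _).trans ?_
    push_cast
    linarith

theorem pf_HB : T_HB.{u} := by
  intro Q _ _ _ _ ν φ r C hG X D M hX hM t
  obtain ⟨hops, c, hc, t₀, ht₀, hD⟩ := hX
  have hC : 0 ≤ C := zero_le_one.trans hG.C_pos
  have key : ∀ᶠ n : ℕ in atTop, ν (X t) ≤ C * M * |t| + C * c * t ^ 2 * (n : ℝ)⁻¹ := by
    have h1 : ∀ᶠ n : ℕ in atTop, |t| / t₀ ≤ (n : ℝ) :=
      tendsto_natCast_atTop_atTop.eventually_ge_atTop _
    filter_upwards [h1, eventually_ne_atTop 0] with n hn hn0
    have hnpos : (0 : ℝ) < n := by exact_mod_cast Nat.pos_of_ne_zero hn0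
    have hsm : |t / n| ≤ t₀ := by
      rw [abs_div, abs_of_pos hnpos, div_le_iff₀ hnpos]
      rwa [div_le_iff₀ ht₀, mul_comm] at hn
    obtain ⟨x, hx⟩ := hG.low (X (t / n))
    have h2 := hD (t / n) x hsm
    have h3 : |φ (X (t / n) * x) - φ x| ≤ |t| / n * M + c * (t / n) ^ 2 := by
      have e1 : φ (X (t / n) * x) - φ x =
          (φ (X (t / n) * x) - φ x - t / n * D x) + t / n * D x := by ring
      rw [e1]
      refine (abs_add_le _ _).trans ?_
      have e2 : |t / n * D x| ≤ |t| / n * M := by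
        rw [abs_mul, abs_div, abs_of_pos hnpos]
        exact mul_le_mul_of_nonneg_left (hM x) (by positivity)
      linarith
    have h4 : ν (X (t / n)) ≤ C * (|t| / n * M + c * (t / n) ^ 2) :=
      hx.trans (mul_le_mul_of_nonneg_left h3 hC)
    have h5 : ν (X t) ≤ n * ν (X (t / n)) := by
      have := nu_pow hG.toPreG (X (t / n)) n
      rwa [hops.div hn0] at this
    calc ν (X t) ≤ n * ν (X (t / n)) := h5
      _ ≤ n * (C * (|t| / n * M + c * (t / n) ^ 2)) :=
        mul_le_mul_of_nonneg_left h4 hnpos.le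
      _ = C * M * |t| + C * c * t ^ 2 * (n : ℝ)⁻¹ := by
        field_simp
  have hlim : Tendsto (fun n : ℕ => C * M * |t| + C * c * t ^ 2 * (n : ℝ)⁻¹) atTop
      (𝓝 (C * M * |t| + C * c * t ^ 2 * 0)) :=
    tendsto_const_nhds.add (tendsto_const_nhds.mul
      (tendsto_inv_atTop_zero.comp tendsto_natCast_atTop_atTop))
  rw [mul_zero, add_zero] at hlim
  exact ge_of_tendsto hlim key

end Pool.Agent.H71.GY
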